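import Pool.Agent.Lib.MP_4ba111_anH.HMain

/-!
MP_4ba111_an: ergodic averages along `n ^ α` for explicit irrational `α > 0`.
-/

set_option autoImplicit false

open MeasureTheory Filter Topology
open scoped ENNReal

namespace Pool.Agent.Results.MP_4ba111_an.ExplicitExponents

open MP4ba111

/-- If `α` has very good rational approximations (`HL α`), then `α` is irrational, the numbers
`n ^ α` are linearly independent over the rationals, and `(n ^ α)` is strong sweeping out (even with
lower limit `0`) in every aperiodic flow, and so universally bad in every `L ^ p`. The explicit number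
`alphaEx` has this property. -/
theorem result :
    (∀ α : ℝ, HL α → Irrational α ∧ Indep (fun n : ℕ => (n : ℝ) ^ α) ∧
      StrongSweepingOut (fun n : ℕ => (n : ℝ) ^ α) ∧
      ∀ p : ℝ≥0∞, 1 ≤ p → UniversallyBad p (fun n : ℕ => (n : ℝ) ^ α)) ∧
    0 < alphaEx ∧ HL alphaEx := by
  refine ⟨fun α hα => ?_, alphaEx_pos, hl_alphaEx⟩
  have h := main_HL hα
  exact ⟨irrational_of_HL hα, h.1, h.2.1, fun p _ => h.2.2 p⟩

end Pool.Agent.Results.MP_4ba111_an.ExplicitExponents
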