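import Pool.Agent.Lib.MP_4ba111_an.Main

/-!
MP_4ba111_an: ergodic averages along `n ^ α` for negative `α`, and along every injective sequence
of positive reals which tends to `0`.
-/

set_option autoImplicit false

open MeasureTheory Filter Topology
open scoped ENNReal

namespace Pool.Agent.Results.MP_4ba111_an.NegativeExponents

open MP4ba111

/-- Let `s 1, s 2, …` be distinct positive reals with `s n → 0`. Then `(s n)` is strong sweeping out
(even with lower limit `0`) in every aperiodic flow, and so universally bad in every `L ^ p`. In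
particular this holds for `s n = n ^ α` for every real `α < 0`. -/
theorem result :
    (∀ s : ℕ → ℝ, (∀ n, 1 ≤ n → 0 < s n) → Set.InjOn s (Set.Ici 1) → Tendsto s atTop (𝓝 0) →
      StrongSweepingOut s ∧ ∀ p : ℝ≥0∞, 1 ≤ p → UniversallyBad p s) ∧
    ∀ α : ℝ, α < 0 → StrongSweepingOut (fun n : ℕ => (n : ℝ) ^ α) ∧
      ∀ p : ℝ≥0∞, 1 ≤ p → UniversallyBad p (fun n : ℕ => (n : ℝ) ^ α) := by
  refine ⟨fun s hs hinj hlim => ?_, fun α hα => ?_⟩
  · have h := main_seq hs hinj hlim
    exact ⟨h.1, fun p _ => h.2 p⟩
  · have h := main_pow hα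
    exact ⟨h.1, fun p _ => h.2 p⟩

end Pool.Agent.Results.MP_4ba111_an.NegativeExponents
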